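import Pool.Agent.N290.RK.Stm2

set_option autoImplicit false

/-!
# Project RK of helper290, part XS: the phase (helper914)
-/

open Complex MeasureTheory Set Filter Topology

namespace Pool.Agent.N914.RK

open Pool.Agent.N290.RJ Pool.Agent.N290.RK

variable {d : ℕ}

lemma num {C₁ K a L u u' s l l' m e e' dp x D : ℝ} (hC : 0 < C₁) (hK : 0 ≤ K) (ha : 0 ≤ a)
    (hL : 0 ≤ L) (hu : 0 < u) (hu' : 0 < u') (hs0 : 0 ≤ s) (hs1 : s ≤ 1)
    (hus : u' ^ 8 = u ^ 8 * (1 + s)) (hl : 0 < l) (hl' : 0 < l') (hll : l' ≤ (1 + s / 64) * l)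
    (hdp : l' * dp ≤ C₁ * (a / u) * s) (hx0 : 0 ≤ x)
    (hx : x ≤ 3 / 2 * K * a * u' ^ 3 * L) (hm0 : 0 ≤ m) (hm : l * m ≤ C₁ * a * u ^ 3 * L)
    (hD0 : 0 ≤ D) (hD : D ≤ K * (a / u) * s) (he0 : 0 ≤ e)
    (he : l * e ≤ 160 * C₁ * K * a ^ 2 * u ^ 2 * L) (he' : e' ≤ e + dp * x + D * (m + m)) :
    l' * e' ≤ 160 * C₁ * K * a ^ 2 * u' ^ 2 * L := by
  obtain ⟨h1, h3⟩ := num_b hu hu' hs0 hs1 hus
  have hl2 : l' ≤ 2 * l := hll.trans (mul_le_mul_of_nonneg_right (by linarith) hl.le)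
  have hT1 : l' * e ≤ 160 * (C₁ * K * a ^ 2 * L) * (u ^ 2 * (1 + s / 64)) := by
    calc l' * e ≤ ((1 + s / 64) * l) * e := mul_le_mul_of_nonneg_right hll he0
      _ = (1 + s / 64) * (l * e) := by ring
      _ ≤ (1 + s / 64) * (160 * C₁ * K * a ^ 2 * u ^ 2 * L) :=
        mul_le_mul_of_nonneg_left he (by linarith)
      _ = _ := by ring
  have hx' : x ≤ 12 * (K * a * u ^ 3 * L) := by
    calc x ≤ 3 / 2 * K * a * u' ^ 3 * L := hx
      _ = (3 / 2 * K * a * L) * u' ^ 3 := by ring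
      _ ≤ (3 / 2 * K * a * L) * (8 * u ^ 3) := mul_le_mul_of_nonneg_left h3 (by positivity)
      _ = _ := by ring
  have hT2 : (l' * dp) * x ≤ 12 * (C₁ * K * a ^ 2 * L) * (s * u ^ 2) := by
    calc (l' * dp) * x ≤ (C₁ * (a / u) * s) * (12 * (K * a * u ^ 3 * L)) :=
        mul_le_mul hdp hx' hx0 (by positivity)
      _ = _ := by field_simp
  have hT3 : l' * (D * (m + m)) ≤ 4 * (C₁ * K * a ^ 2 * L) * (s * u ^ 2) := by
    calc l' * (D * (m + m)) ≤ 2 * l * (D * (m + m)) :=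
        mul_le_mul_of_nonneg_right hl2 (by positivity)
      _ = 4 * (D * (l * m)) := by ring
      _ ≤ 4 * ((K * (a / u) * s) * (C₁ * a * u ^ 3 * L)) := by
        apply mul_le_mul_of_nonneg_left _ (by norm_num)
        exact mul_le_mul hD hm (by positivity) (by positivity)
      _ = _ := by field_simp
  have hE : l' * e' ≤ l' * e + (l' * dp) * x + l' * (D * (m + m)) := by
    calc l' * e' ≤ l' * (e + dp * x + D * (m + m)) := mul_le_mul_of_nonneg_left he' hl'.le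
      _ = _ := by ring
  have hW : 0 ≤ C₁ * K * a ^ 2 * L := by positivity
  have h4 : 0 ≤ (C₁ * K * a ^ 2 * L) * (s * u ^ 2) := by positivity
  have h5 := mul_le_mul_of_nonneg_left h1 hW
  have h6 : 160 * C₁ * K * a ^ 2 * u' ^ 2 * L = 160 * ((C₁ * K * a ^ 2 * L) * u' ^ 2) := by ring
  rw [h6]
  generalize C₁ * K * a ^ 2 * L = W at *
  have h7 : W * (u ^ 2 * (1 + s / 8)) = W * u ^ 2 + 1 / 8 * (W * (s * u ^ 2)) := by ring
  have h8 : 160 * W * (u ^ 2 * (1 + s / 64)) = 160 * (W * u ^ 2) + 160 / 64 * (W * (s * u ^ 2)) := by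
    ring
  have h9 : 12 * W * (s * u ^ 2) = 12 * (W * (s * u ^ 2)) := by ring
  have h10 : 4 * W * (s * u ^ 2) = 4 * (W * (s * u ^ 2)) := by ring
  rw [h8] at hT1
  rw [h9] at hT2
  rw [h10] at hT3
  rw [h7] at h5
  linarith

lemma db_norm {γ : E d → ℂ} {z ξ : E d} {m : ℝ} (h1 : ‖fderiv ℝ γ z ξ‖ ≤ m)
    (h2 : ‖fderiv ℝ γ z (I • ξ)‖ ≤ m) : ‖db γ z ξ‖ ≤ m := by
  unfold db
  rw [norm_div]
  have h3 : ‖fderiv ℝ γ z ξ + I * fderiv ℝ γ z (I • ξ)‖ ≤ m + m := by
    refine (norm_add_le _ _).trans ?_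
    rw [norm_mul, Complex.norm_I, one_mul]
    linarith
  have h4 : ‖(2 : ℂ)‖ = 2 := by norm_num
  rw [h4]
  linarith

lemma fderiv_conj {γ : E d → ℂ} {z : E d} (h : DifferentiableAt ℝ γ z) (ξ : E d) :
    fderiv ℝ (fun w => starRingEnd ℂ (γ w)) z ξ = starRingEnd ℂ (fderiv ℝ γ z ξ) := by
  have h1 : HasFDerivAt (fun w => starRingEnd ℂ (γ w))
      ((Complex.conjCLE : ℂ →L[ℝ] ℂ).comp (fderiv ℝ γ z)) z :=
    (Complex.conjCLE : ℂ →L[ℝ] ℂ).hasFDerivAt.comp z h.hasFDerivAt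
  rw [h1.fderiv]
  rfl

lemma diff_conj {γ : E d → ℂ} {z : E d} (h : DifferentiableAt ℝ γ z) :
    DifferentiableAt ℝ (fun w => starRingEnd ℂ (γ w)) z :=
  (Complex.conjCLE : ℂ →L[ℝ] ℂ).differentiableAt.comp z h

lemma diff_real {γ : E d → ℝ} {z : E d} (h : DifferentiableAt ℝ γ z) :
    DifferentiableAt ℝ (fun w => (γ w : ℂ)) z :=
  Complex.ofRealCLM.differentiableAt.comp z h

lemma db_conj_norm {γ : E d → ℂ} {z ξ : E d} {m : ℝ} (h : DifferentiableAt ℝ γ z)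
    (h1 : ‖fderiv ℝ γ z ξ‖ ≤ m) (h2 : ‖fderiv ℝ γ z (I • ξ)‖ ≤ m) :
    ‖db (fun w => starRingEnd ℂ (γ w)) z ξ‖ ≤ m := by
  apply db_norm
  · rw [fderiv_conj h, RCLike.norm_conj]; exact h1
  · rw [fderiv_conj h, RCLike.norm_conj]; exact h2

lemma db_cmul (c : ℂ) {γ : E d → ℂ} {z : E d} (h : DifferentiableAt ℝ γ z) (ξ : E d) :
    db (fun w => c * γ w) z ξ = c * db γ z ξ := by
  rw [db_mul (differentiableAt_const c) h, db_hol (differentiableAt_const c)]
  ring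

/-- the `∂̄`-derivative of the phase in one step -/
lemma step {S : E d → ℝ} {p F₀ F₁ : E d → ℂ} {z ξ : E d} {x₀ x₁ : ℂ}
    (hS : DifferentiableAt ℝ S z) (hp : DifferentiableAt ℝ p z) (hF₀ : DifferentiableAt ℝ F₀ z)
    (hF₁ : DifferentiableAt ℝ F₁ z) (h₀ : db F₀ z ξ = 0) (h₁ : db F₁ z ξ = 0)
    (c₀ : db (fun w => starRingEnd ℂ (F₀ w)) z ξ = starRingEnd ℂ x₀)
    (c₁ : db (fun w => starRingEnd ℂ (F₁ w)) z ξ = starRingEnd ℂ x₁) :
    db (fun w => ((S w + 2 * (p w * (F₁ w - F₀ w)).im : ℝ) : ℂ)) z ξ =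
      db (fun w => (S w : ℂ)) z ξ + (-I * ((F₁ z - F₀ z) * db p z ξ) +
        I * (starRingEnd ℂ (p z) * (starRingEnd ℂ x₁ - starRingEnd ℂ x₀) +
          (starRingEnd ℂ (F₁ z) - starRingEnd ℂ (F₀ z)) *
            db (fun w => starRingEnd ℂ (p w)) z ξ)) := by
  have e : (fun w => ((S w + 2 * (p w * (F₁ w - F₀ w)).im : ℝ) : ℂ)) = fun w => (S w : ℂ) +
      (-I * (p w * (F₁ w - F₀ w)) + I * (starRingEnd ℂ (p w) *
        (starRingEnd ℂ (F₁ w) - starRingEnd ℂ (F₀ w)))) := by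
    funext w
    have h1 := Complex.sub_conj (p w * (F₁ w - F₀ w))
    rw [map_mul, map_sub] at h1
    push_cast at h1 ⊢
    linear_combination I * h1 + 2 * ((p w * (F₁ w - F₀ w)).im : ℂ) * Complex.I_sq
  rw [e]
  have d1 := diff_real hS
  have d2 : DifferentiableAt ℝ (fun w => F₁ w - F₀ w) z := hF₁.sub hF₀
  have d3 : DifferentiableAt ℝ (fun w => p w * (F₁ w - F₀ w)) z := hp.mul d2
  have d4 : DifferentiableAt ℝ (fun w => starRingEnd ℂ (F₁ w) - starRingEnd ℂ (F₀ w)) z :=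
    (diff_conj hF₁).sub (diff_conj hF₀)
  have d5 : DifferentiableAt ℝ (fun w => starRingEnd ℂ (p w) *
      (starRingEnd ℂ (F₁ w) - starRingEnd ℂ (F₀ w))) z := (diff_conj hp).mul d4
  have d6 : DifferentiableAt ℝ (fun w => -I * (p w * (F₁ w - F₀ w))) z :=
    (differentiableAt_const (-I)).mul d3
  have d7 : DifferentiableAt ℝ (fun w => I * (starRingEnd ℂ (p w) *
      (starRingEnd ℂ (F₁ w) - starRingEnd ℂ (F₀ w)))) z := (differentiableAt_const I).mul d5
  have d8 : DifferentiableAt ℝ (fun w => -I * (p w * (F₁ w - F₀ w)) + I * (starRingEnd ℂ (p w) *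
      (starRingEnd ℂ (F₁ w) - starRingEnd ℂ (F₀ w)))) z := d6.add d7
  rw [db_add d1 d8, db_add d6 d7, db_cmul _ d3, db_cmul _ d5, db_mul hp d2,
    db_mul (diff_conj hp) d4, db_sub hF₁ hF₀, db_sub (diff_conj hF₁) (diff_conj hF₀), h₀, h₁, c₀, c₁]
  ring

theorem XS_of (d : ℕ) (hF : XF d) (hP : XP d) : XS d := by
  intro K C A L
  obtain ⟨C₁, hC₁, hP⟩ := hP K C A L
  refine ⟨160 * C₁ * (1 + |K|), by positivity, ?_⟩
  intro ε₂ φ χ h ω f hD
  have hKK : K ≤ 1 + |K| := by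
    have := le_abs_self K
    linarith
  have hK0 : (0 : ℝ) ≤ 1 + |K| := by positivity
  have hfc := cd_hol hD.f1
  have hfj : ∀ j : ℕ, ContDiffOn ℝ 1 (fun w => f (rad j • w)) (B d) := fun j =>
    cd_dil hfc (rad_nonneg j) (rad_lt_one j).le
  have hdiff : ∀ {G : Type} [NormedAddCommGroup G] [NormedSpace ℝ G] {γ : E d → G},
      ContDiffOn ℝ 1 γ (B d) → ∀ z ∈ B d, DifferentiableAt ℝ γ z := by
    intro G _ _ γ hγ z hz
    exact (hγ.differentiableOn (by norm_num)).differentiableAt (B_open.mem_nhds hz)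
  intro j
  induction j with
  | zero =>
    refine ⟨contDiffOn_const, fun z hz ξ => ?_⟩
    have h4 : rad 0 = 0 := by simp [rad]
    have h5 : xj f 0 z ξ = 0 := by
      unfold xj
      rw [h4, zero_smul ℝ ξ, map_zero]
    have h6 : db (fun w => (Sj φ A h f 0 w : ℂ)) z ξ = 0 := by
      simp only [Sj]
      exact db_hol (differentiableAt_const _) ξ
    rw [h5, h6]
    simp only [mul_zero, map_zero, sub_zero, norm_zero]
    have := len_nonneg z ξ
    positivity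
  | succ j ih =>
    obtain ⟨ih1, ih2⟩ := ih
    obtain ⟨p1, -, p3⟩ := hP ε₂ φ χ h ω f hD j
    obtain ⟨q1, q2, q3⟩ := hP ε₂ φ χ h ω f hD (j + 1)
    refine ⟨?_, fun z hz ξ => ?_⟩
    · have h1 : ContDiffOn ℝ 1 (fun w => pj φ A h f j w * (f (rad (j + 1) • w) - f (rad j • w)))
          (B d) := p1.mul ((hfj (j + 1)).sub (hfj j))
      have h2 : ContDiffOn ℝ 1 (fun w => (pj φ A h f j w *
          (f (rad (j + 1) • w) - f (rad j • w))).im) (B d) :=
        Complex.imCLM.contDiff.comp_contDiffOn h1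
      exact ih1.add (contDiffOn_const.mul h2)
    · obtain ⟨r1, r2, r3, r4⟩ := p3 z hz
      obtain ⟨t1, t2, t3, t4⟩ := q3 z hz
      obtain ⟨f1, f2, f3, f4, f5, f6, f7, f8, f9⟩ := hF K C A L ε₂ φ χ h ω f hD j z hz
      obtain ⟨g1, g2, g3, g4, g5, g6, g7, g8, g9⟩ := hF K C A L ε₂ φ χ h ω f hD (j + 1) z hz
      obtain ⟨-, -, b3, b4⟩ := f9 ξ
      obtain ⟨a1, -, a3, a4⟩ := g9 ξ
      have hLn := len_nonneg z ξ
      have ha : 0 ≤ ω (1 - N z) := (hD.pos _ (sub_pos.2 hz)).le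
      have hpz := hdiff p1 z hz
      have hst := step (hdiff ih1 z hz) hpz (hdiff (hfj j) z hz) (hdiff (hfj (j + 1)) z hz)
        b3 a3 b4 a4
      have hE : (fun w => (Sj φ A h f (j + 1) w : ℂ)) = fun w => ((Sj φ A h f j w +
          2 * (pj φ A h f j w * (f (rad (j + 1) • w) - f (rad j • w))).im : ℝ) : ℂ) := rfl
      rw [hE, hst]
      -- the derivative of `p`
      set m : ℝ := max ‖fderiv ℝ (pj φ A h f j) z ξ‖ ‖fderiv ℝ (pj φ A h f j) z (I • ξ)‖ with hm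
      have hm0 : 0 ≤ m := (norm_nonneg _).trans (le_max_left _ _)
      have hml : lj φ A h f j z * m ≤ C₁ * ω (1 - N z) * uu z (rad j) ^ 3 * len z ξ := by
        rcases max_choice ‖fderiv ℝ (pj φ A h f j) z ξ‖ ‖fderiv ℝ (pj φ A h f j) z (I • ξ)‖
          with h' | h'
        · rw [hm, h']; exact (r4 ξ).1
        · rw [hm, h']
          have := (r4 (I • ξ)).1
          rwa [len_I] at this
      have hd1 : ‖db (pj φ A h f j) z ξ‖ ≤ m := db_norm (le_max_left _ _) (le_max_right _ _)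
      have hd2 : ‖db (fun w => starRingEnd ℂ (pj φ A h f j w)) z ξ‖ ≤ m :=
        db_conj_norm hpz (le_max_left _ _) (le_max_right _ _)
      refine num (K := 1 + |K|) (e := ‖db (fun w => (Sj φ A h f j w : ℂ)) z ξ -
        I * starRingEnd ℂ (pj φ A h f j z * xj f j z ξ)‖)
        (dp := ‖pj φ A h f (j + 1) z - pj φ A h f j z‖) (x := ‖xj f (j + 1) z ξ‖) (m := m)
        (D := ‖f (rad (j + 1) • z) - f (rad j • z)‖)
        hC₁ hK0 ha hLn f3 g3 f1 f2 f5 r1 t1 r2 r3 (norm_nonneg _) ?_ hm0 hml (norm_nonneg _) ?_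
        (norm_nonneg _) ?_ ?_
      · refine a1.trans ?_
        have : 0 ≤ ω (1 - N z) * uu z (rad (j + 1)) ^ 3 * len z ξ := by positivity
        nlinarith
      · refine f8.trans ?_
        have : 0 ≤ ω (1 - N z) / uu z (rad j) * st j z := by positivity
        nlinarith
      · exact ih2 z hz ξ
      · have e : db (fun w => (Sj φ A h f j w : ℂ)) z ξ +
            (-I * ((f (rad (j + 1) • z) - f (rad j • z)) * db (pj φ A h f j) z ξ) +
              I * (starRingEnd ℂ (pj φ A h f j z) *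
                (starRingEnd ℂ (xj f (j + 1) z ξ) - starRingEnd ℂ (xj f j z ξ)) +
                (starRingEnd ℂ (f (rad (j + 1) • z)) - starRingEnd ℂ (f (rad j • z))) *
                  db (fun w => starRingEnd ℂ (pj φ A h f j w)) z ξ)) -
            I * starRingEnd ℂ (pj φ A h f (j + 1) z * xj f (j + 1) z ξ) =
          (db (fun w => (Sj φ A h f j w : ℂ)) z ξ -
            I * starRingEnd ℂ (pj φ A h f j z * xj f j z ξ)) +
          (-(I * (starRingEnd ℂ (pj φ A h f (j + 1) z - pj φ A h f j z) *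
            starRingEnd ℂ (xj f (j + 1) z ξ)))) +
          (-I * ((f (rad (j + 1) • z) - f (rad j • z)) * db (pj φ A h f j) z ξ) +
            I * (starRingEnd ℂ (f (rad (j + 1) • z) - f (rad j • z)) *
              db (fun w => starRingEnd ℂ (pj φ A h f j w)) z ξ)) := by
          simp only [map_mul, map_sub]
          ring
        rw [e]
        refine (norm_add₃_le).trans ?_
        gcongr
        · rw [norm_neg, norm_mul, norm_mul, Complex.norm_I, one_mul, RCLike.norm_conj,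
            RCLike.norm_conj]
        · refine (norm_add_le _ _).trans ?_
          rw [norm_mul, norm_mul, norm_mul, norm_mul, norm_neg, Complex.norm_I, one_mul, one_mul,
            RCLike.norm_conj, mul_add]
          gcongr

end Pool.Agent.N914.RK
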